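import Mathlib
import Pool.Agent.H790R3.RB.TMUL
import Pool.Agent.H790R3.RB.TFAM
import Pool.Agent.H790R3.RB.TSP
import Pool.Agent.H790R3.RB.TMOB
import Pool.Agent.W757.QR.St

/-! Task RQ-OPA: attracted points are stable. -/

set_option autoImplicit false

open Topology Filter Metric Set MeasureTheory
open scoped OnePoint
open Pool.Agent.H790R3.RB
open Pool.Agent.H790R3.RB.FAM (cp cp_ne cp_cont zb ch_eq deriv_ret FPk ND_open)

namespace Pool.Agent.W324.RQOPA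

/-- the chart of the sphere -/
noncomputable def ph (k : Option (Fin 1)) (w : ℂ) : OnePoint ℂ := pr (cp k w)

/-- the coordinate of a point -/
theorem exists_chart (z : OnePoint ℂ) :
    ∃ (k : Option (Fin 1)) (β : Fin 1 → Unit → ℂ), ph k (zb β k ()) = z := by
  induction z using OnePoint.rec with
  | infty => exact ⟨none, fun _ _ => 0, SP.pr_zero rfl⟩
  | coe z =>
    refine ⟨some 0, fun _ _ => z, ?_⟩
    show pr (z, 1) = _
    rw [SP.pr_ne (by simp)]; simp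

theorem ph_open (k : Option (Fin 1)) : IsOpenMap (ph k) := by
  have h1 : IsOpenMap (fun w : ℂ => pr (w, 1)) := by
    have h2 : (fun w : ℂ => pr (w, 1)) = fun w : ℂ => (w : OnePoint ℂ) := by
      funext w
      rw [SP.pr_ne (by simp)]; simp
    rw [h2]
    exact OnePoint.isOpenEmbedding_coe.isOpenMap
  cases k with
  | some k => exact h1
  | none =>
    obtain ⟨h, hh, -⟩ := MOB SP 0 1 1 0 (by norm_num)
    have h3 : ph (none : Option (Fin 1)) = fun w : ℂ => h (pr (w, 1)) := by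
      funext w
      have h4 := hh (w, 1) (fun h => one_ne_zero (congrArg Prod.snd h))
      simp only [zero_mul, one_mul, zero_add, add_zero] at h4
      rw [h4]
      rfl
    rw [h3]
    exact h.isOpenMap.comp h1

theorem ph_cont (k : Option (Fin 1)) : Continuous (ph k) := by
  rw [continuous_iff_continuousAt]
  intro w
  exact ContinuousAt.comp (f := cp k) (g := pr) (x := w) (SP.continuousAt_pr (cp_ne k w))
    (cp_cont k).continuous.continuousAt

theorem sp_ph {d : ℕ} {x : CV d} (hx : ND x) (hd : 1 ≤ d) (k : Option (Fin 1)) (w : ℂ) (N : ℕ) :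
    (sp x)^[N] (ph k w) = pr ((hF x)^[N] (cp k w)) :=
  (SP d x hd hx).2.1 _ (cp_ne k w) N

theorem pr_smul {a : ℂ} (ha : a ≠ 0) {p : ℂ × ℂ} (hp : p ≠ 0) : pr (a • p) = pr p := by
  rw [SP.pr_eq_iff (smul_ne_zero ha hp) hp, cr_smul_left, cr_self, mul_zero]

/-- a uniformly contracted disc is attracted -/
theorem attd_disc {d : ℕ} {x : CV d} (hx : ND x) (hd : 1 ≤ d) (k : Option (Fin 1)) (p : ℕ)
    (hp : 0 < p) (b : ℂ) (θ ρ : ℝ) (hθ0 : 0 ≤ θ) (hθ : θ < 1) (hρ : 0 < ρ)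
    (h : ∀ u : ℂ, ‖u‖ < ρ → ∃ a z' : ℂ, a ≠ 0 ∧ ‖z'‖ ≤ θ * ‖u‖ ∧
        (hF x)^[p] (cp k (b + u)) = a • cp k (b + z')) :
    Sink (sp x) p (ph k b) ∧ ∀ u : ℂ, ‖u‖ < ρ →
      Tendsto (fun j : ℕ => (sp x)^[p * j] (ph k (b + u))) atTop (𝓝 (ph k b)) := by
  have h1 : ∀ u : ℂ, ‖u‖ < ρ → ∃ z' : ℂ, ‖z'‖ ≤ θ * ‖u‖ ∧
      (sp x)^[p] (ph k (b + u)) = ph k (b + z') := by
    intro u hu
    obtain ⟨a, z', ha, hz, he⟩ := h u hu
    refine ⟨z', hz, ?_⟩
    rw [sp_ph hx hd, he, pr_smul ha (cp_ne k _)]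
    rfl
  have h2 : ∀ j : ℕ, ∀ u : ℂ, ‖u‖ < ρ → ∃ z' : ℂ, ‖z'‖ ≤ θ ^ j * ‖u‖ ∧
      (sp x)^[p * j] (ph k (b + u)) = ph k (b + z') := by
    intro j
    induction j with
    | zero => exact fun u _ => ⟨u, by simp, by simp⟩
    | succ j ih =>
      intro u hu
      obtain ⟨z1, hz1, he1⟩ := ih u hu
      have hz1' : ‖z1‖ < ρ := by
        refine lt_of_le_of_lt (hz1.trans ?_) hu
        exact mul_le_of_le_one_left (norm_nonneg _) (pow_le_one₀ hθ0 hθ.le)
      obtain ⟨z2, hz2, he2⟩ := h1 z1 hz1'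
      refine ⟨z2, ?_, ?_⟩
      · calc ‖z2‖ ≤ θ * ‖z1‖ := hz2
          _ ≤ θ * (θ ^ j * ‖u‖) := mul_le_mul_of_nonneg_left hz1 hθ0
          _ = θ ^ (j + 1) * ‖u‖ := by ring
      · rw [Nat.mul_succ, Nat.add_comm, Function.iterate_add_apply, he1, he2]
  have h3 : Tendsto (fun j : ℕ => θ ^ j * ρ) atTop (𝓝 0) := by
    have := (tendsto_pow_atTop_nhds_zero_of_lt_one hθ0 hθ).mul_const ρ
    simpa using this
  have h4 : ∀ V ∈ 𝓝 (ph k b), ∀ᶠ j : ℕ in atTop, ∀ u : ℂ, ‖u‖ < ρ →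
      (sp x)^[p * j] (ph k (b + u)) ∈ V := by
    intro V hV
    have h5 : (fun u : ℂ => ph k (b + u)) ⁻¹' V ∈ 𝓝 (0 : ℂ) := by
      have h6 : ContinuousAt (fun u : ℂ => ph k (b + u)) 0 :=
        ((ph_cont k).comp (continuous_const.add continuous_id)).continuousAt
      apply h6
      show V ∈ 𝓝 (ph k (b + 0))
      rw [add_zero]; exact hV
    obtain ⟨δ, hδ, hb⟩ := Metric.mem_nhds_iff.1 h5
    filter_upwards [h3.eventually_lt_const hδ] with j hj u hu
    obtain ⟨z', hz, he⟩ := h2 j u hu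
    rw [he]
    apply hb
    rw [mem_ball_zero_iff]
    calc ‖z'‖ ≤ θ ^ j * ‖u‖ := hz
      _ ≤ θ ^ j * ρ := mul_le_mul_of_nonneg_left hu.le (pow_nonneg hθ0 j)
      _ < δ := hj
  refine ⟨⟨hp, ?_, ph k '' ball b ρ, ?_, ?_⟩, ?_⟩
  · obtain ⟨z', hz, he⟩ := h1 0 (by simpa using hρ)
    rw [norm_zero, mul_zero] at hz
    have hz0 : z' = 0 := norm_le_zero_iff.1 hz
    rw [add_zero, hz0, add_zero] at he
    exact he
  · exact (ph_open k).image_mem_nhds (ball_mem_nhds b hρ)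
  · intro V hV
    filter_upwards [h4 V hV] with j hj
    rintro _ ⟨w, hw, rfl⟩
    have := hj (w - b) (by rwa [mem_ball, dist_eq_norm] at hw)
    rwa [add_sub_cancel] at this
  · intro u hu
    rw [tendsto_def]
    intro V hV
    filter_upwards [h4 V hV] with j hj
    exact hj u hu

theorem task : Pool.Agent.W757.QR.StOPA := by
  intro d x z hd hx hz
  have hd1 : 1 ≤ d := by omega
  obtain ⟨p, a, hS, hT⟩ := hz
  obtain ⟨k, β, hkβ⟩ := exists_chart a
  obtain ⟨k2, β2, hkβ2⟩ := exists_chart z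
  have hp : 0 < p := hS.1
  -- the multiplier
  have hch : ch β k () 0 = cp k (zb β k ()) := by rw [ch_eq, add_zero]
  have hpra : pr (ch β k () 0) = a := by rw [hch]; exact hkβ
  have hmul : ‖deriv (fun z => Pool.Agent.H790R3.RB.FAM.lc k ((hF x)^[p] (cp k z))) (zb β k ())‖ < 1 := by
    rw [← deriv_ret]
    exact MUL SP d x p 1 β k hd hx (by rw [hpra]; exact hS)
  obtain ⟨θ, hθ1, hθ⟩ := exists_between hmul
  have hθ0 : 0 ≤ θ := (norm_nonneg _).trans hθ1.le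
  have hcyc : cr ((hF x)^[p] (cp k (zb β k ()))) (cp k (zb β k ())) = 0 := by
    rw [← SP.pr_eq_iff (hx.iter_ne p (cp_ne k _)) (cp_ne k _), ← sp_ph hx hd1]
    show (sp x)^[p] (ph k (zb β k ())) = ph k (zb β k ())
    rw [hkβ]
    exact hS.2.1
  -- reindexing of the coefficients
  set e : Fin 2 × Fin (d + 1) ≃ Fin (2 * (d + 1)) := finProdFinEquiv with he
  set w : (Fin (2 * (d + 1)) → ℂ) → CV d := fun y i => x i + y (e i) with hw
  have hw0 : w 0 = x := by funext i; simp [hw]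
  have hwd : Differentiable ℂ w := by
    refine differentiable_pi.2 fun i => ?_
    exact (differentiable_const _).add (differentiable_apply _)
  obtain ⟨b, hb0, hbd, hb⟩ := FPk (s := 1) w (Eventually.of_forall fun y => hwd y)
    (by rw [hw0]; exact hx) k p (zb β k ()) θ hθ (by rw [hw0]; exact hcyc) (by rw [hw0]; exact hθ1)
  have hbc : ContinuousAt b 0 := hbd.self_of_nhds.continuousAt
  rw [Metric.eventually_nhds_iff] at hb
  obtain ⟨ρ, hρ, hb⟩ := hb
  -- closeness of the periodic point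
  have hb2 : ∀ᶠ y in 𝓝 (0 : Fin (2 * (d + 1)) → ℂ), ‖b y - zb β k ()‖ < ρ / 2 := by
    have h1 : Tendsto (fun y => ‖b y - zb β k ()‖) (𝓝 0) (𝓝 0) := by
      have h2 : Tendsto (fun y => ‖b y - zb β k ()‖) (𝓝 0) (𝓝 ‖b 0 - zb β k ()‖) :=
        (hbc.tendsto.sub_const _).norm
      rwa [hb0, sub_self, norm_zero] at h2
    exact h1.eventually_lt_const (by positivity)
  obtain ⟨τ, hτ, hb2⟩ := Metric.eventually_nhds_iff.1 hb2
  -- the open set about the sink
  have hU0 : IsOpen (ph k '' ball (zb β k ()) (ρ / 2)) := ph_open k _ isOpen_ball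
  have haU0 : ph k '' ball (zb β k ()) (ρ / 2) ∈ 𝓝 a := by
    rw [← hkβ]
    exact (ph_open k).image_mem_nhds (ball_mem_nhds _ (by positivity))
  obtain ⟨K, hK⟩ := (hT.eventually haU0).exists
  -- joint continuity
  have hΨ : ContinuousAt (fun q : CV d × ℂ => pr ((hF q.1)^[p * K] (cp k2 q.2)))
      (x, zb β2 k2 ()) := by
    have h1 : ContinuousAt (fun q : CV d × ℂ => (hF q.1)^[p * K] (cp k2 q.2))
        (x, zb β2 k2 ()) := by
      have h2 : Continuous (fun q : CV d × ℂ => (q.1, cp k2 q.2)) :=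
        continuous_fst.prodMk ((cp_cont k2).continuous.comp continuous_snd)
      exact ((hF_iter_continuous d (p * K)).comp h2).continuousAt
    exact ContinuousAt.comp (f := fun q : CV d × ℂ => (hF q.1)^[p * K] (cp k2 q.2)) (g := pr)
      (SP.continuousAt_pr (hx.iter_ne _ (cp_ne k2 _))) h1
  have hΨ0 : pr ((hF x)^[p * K] (cp k2 (zb β2 k2 ()))) = (sp x)^[p * K] z := by
    rw [← sp_ph hx hd1, hkβ2]
  have hΨ1 : ∀ᶠ q : CV d × ℂ in 𝓝 (x, zb β2 k2 ()),
      pr ((hF q.1)^[p * K] (cp k2 q.2)) ∈ ph k '' ball (zb β k ()) (ρ / 2) := by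
    apply hΨ
    show _ ∈ 𝓝 (pr ((hF x)^[p * K] (cp k2 (zb β2 k2 ()))))
    rw [hΨ0]
    exact hU0.mem_nhds hK
  obtain ⟨δ, hδ, hΨ2⟩ := Metric.eventually_nhds_iff.1 hΨ1
  obtain ⟨σ₀, hσ₀, hND⟩ := Metric.eventually_nhds_iff.1 (ND_open hx)
  refine ⟨min (min ρ τ) (min δ σ₀), ph k2 '' ball (zb β2 k2 ()) δ,
    lt_min (lt_min hρ hτ) (lt_min hδ hσ₀), ?_, ?_⟩
  · rw [← hkβ2]
    exact (ph_open k2).image_mem_nhds (ball_mem_nhds _ hδ)
  intro x' hx'
  have hx'1 : ‖x' - x‖ < ρ := hx'.trans_le ((min_le_left _ _).trans (min_le_left _ _))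
  have hx'2 : ‖x' - x‖ < τ := hx'.trans_le ((min_le_left _ _).trans (min_le_right _ _))
  have hx'3 : ‖x' - x‖ < δ := hx'.trans_le ((min_le_right _ _).trans (min_le_left _ _))
  have hx'4 : ‖x' - x‖ < σ₀ := hx'.trans_le ((min_le_right _ _).trans (min_le_right _ _))
  have hND' : ND x' := hND (by rwa [dist_eq_norm])
  refine ⟨hND', ?_⟩
  rintro _ ⟨u, hu, rfl⟩
  -- the parameter
  set y : Fin (2 * (d + 1)) → ℂ := fun j => (x' - x) (e.symm j) with hy
  have hwy : w y = x' := by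
    funext i
    simp only [hw, hy, Equiv.symm_apply_apply, Pi.sub_apply]
    ring
  have hyn : ‖y‖ ≤ ‖x' - x‖ := by
    rw [pi_norm_le_iff_of_nonneg (norm_nonneg _)]
    intro j
    exact norm_le_pi_norm (x' - x) (e.symm j)
  have hcon : ∀ u : ℂ, ‖u‖ < ρ → ∃ a z' : ℂ, a ≠ 0 ∧ ‖z'‖ ≤ θ * ‖u‖ ∧
      (hF x')^[p] (cp k (b y + u)) = a • cp k (b y + z') := by
    intro u hu
    have h1 := @hb (y, u) (by
      rw [dist_eq_norm, Prod.norm_def]
      simp only [Prod.fst_sub, Prod.snd_sub, sub_zero]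
      exact max_lt (hyn.trans_lt hx'1) hu)
    simp only [hwy] at h1
    exact h1
  obtain ⟨hsink, htend⟩ := attd_disc hND' hd1 k p hp (b y) θ ρ hθ0 hθ hρ hcon
  have hclose : ‖b y - zb β k ()‖ < ρ / 2 := by
    have := @hb2 y (by rw [dist_zero_right]; exact hyn.trans_lt hx'2)
    exact this
  refine ⟨p, ph k (b y), hsink, ?_⟩
  have hin : (sp x')^[p * K] (ph k2 u) ∈ ph k '' ball (zb β k ()) (ρ / 2) := by
    rw [sp_ph hND' hd1]
    refine @hΨ2 (x', u) ?_
    rw [Prod.dist_eq]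
    refine max_lt ?_ (mem_ball.1 hu)
    show dist x' x < δ
    rwa [dist_eq_norm]
  obtain ⟨u1, hu1, he1⟩ := hin
  have hu2 : ‖u1 - b y‖ < ρ := by
    rw [mem_ball, dist_eq_norm] at hu1
    calc ‖u1 - b y‖ = ‖(u1 - zb β k ()) - (b y - zb β k ())‖ := by congr 1; ring
      _ ≤ ‖u1 - zb β k ()‖ + ‖b y - zb β k ()‖ := norm_sub_le _ _
      _ < ρ := by linarith
  have h5 := htend (u1 - b y) hu2
  rw [add_sub_cancel, he1] at h5
  have h6 : Tendsto (fun j : ℕ => (sp x')^[p * (j + K)] (ph k2 u)) atTop (𝓝 (ph k (b y))) := by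
    refine h5.congr fun j => ?_
    rw [← Function.iterate_add_apply, mul_add]
  exact (tendsto_add_atTop_iff_nat (f := fun j => (sp x')^[p * j] (ph k2 u)) K).1 h6

end Pool.Agent.W324.RQOPA
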