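import Pool.Agent.W810.KP.Defs
import Pool.Agent.H973R3.NC.TS
import Pool.Agent.H973R3.NC.A4L

/-! KP-BLK: sum of influences of tiles by conditioning on a ball. -/

namespace Pool.Agent.W324.KPBlk

open H974 H12S H973N Finset Pool.Agent.W810.KP

/-- A path from the rectangle visits the boundary of the rectangle or stays inside. -/
theorem exit_or {G : Set Edg} {a b c d : ℤ} {u v : Vtx} (hu : inR a b c d u)
    (h : Reach G u v) : (∃ w ∈ bdR a b c d, Reach (G ∩ ↑(RE a b c d)) u w) ∨
      Reach (G ∩ ↑(RE a b c d)) u v := by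
  by_cases hv : v.1 ≤ a ∨ b ≤ v.1 ∨ v.2 ≤ c ∨ d ≤ v.2
  · obtain ⟨w, h1, h2, h3⟩ := first_exit hu h hv
    exact Or.inl ⟨w, ⟨h1, h2⟩, h3⟩
  · have key : ∀ w, Reach G u w → (∃ w ∈ bdR a b c d, Reach (G ∩ ↑(RE a b c d)) u w) ∨
        Reach (G ∩ ↑(RE a b c d)) u w := by
      intro w hw
      induction hw with
      | refl => exact Or.inr (Reach.refl _ _)
      | @tail w w' hr0 hs ih =>
        by_cases hw1 : w.1 ≤ a ∨ b ≤ w.1 ∨ w.2 ≤ c ∨ d ≤ w.2
        · obtain ⟨w, h1, h2, h3⟩ := first_exit hu hr0 hw1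
          exact Or.inl ⟨w, ⟨h1, h2⟩, h3⟩
        · rcases ih with ih | ih
          · exact Or.inl ih
          · right
            push Not at hw1
            obtain ⟨⟨x0, y0, bo⟩, heG, hcase⟩ := hs
            have hmem : ((x0, y0, bo) : Edg) ∈ RE a b c d := by
              cases bo
              · simp only [src_mk, tgt_false] at hcase
                rw [mem_RE_false]
                rcases hcase with ⟨h3, h4⟩ | ⟨h3, h4⟩
                · rw [← h3] at hw1; simp only at hw1; omega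
                · rw [← h4] at hw1; simp only at hw1; omega
              · simp only [src_mk, tgt_true] at hcase
                rw [mem_RE_true]
                rcases hcase with ⟨h3, h4⟩ | ⟨h3, h4⟩
                · rw [← h3] at hw1; simp only at hw1; omega
                · rw [← h4] at hw1; simp only at hw1; omega
            have hadj : Adj (G ∩ ↑(RE a b c d)) w w' := ⟨_, ⟨heG, hmem⟩, hcase⟩
            exact ih.trans hadj.reach
    exact key v h

theorem mem_blk_self {β : Edg} {r : ℕ} (hr : 1 ≤ r) : β ∈ blk (bp β) r := by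
  obtain ⟨x, y, b⟩ := β
  unfold blk bp
  cases b
  · rw [mem_RE_false]; simp only; omega
  · rw [mem_RE_true]; simp only; omega

theorem tgt_near (β : Edg) : (β.1 ≤ (tgt β).1 ∧ (tgt β).1 ≤ β.1 + 1) ∧
    (β.2.1 ≤ (tgt β).2 ∧ (tgt β).2 ≤ β.2.1 + 1) := by
  obtain ⟨x, y, b⟩ := β
  cases b
  · simp only [tgt_false]; omega
  · simp only [tgt_true]; omega

theorem con_union {β : Edg} {X G : Finset Edg} (hG : β ∉ G) :
    Con β (X ∪ G) ↔ CO {src β} {tgt β} (↑(X.erase β) : Set Edg) G := by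
  have e1 : (↑((X ∪ G).erase β) : Set Edg) = ↑G ∪ ↑(X.erase β) := by
    ext x
    simp only [Finset.mem_coe, mem_erase, mem_union, Set.mem_union]
    constructor
    · rintro ⟨h1, h2 | h2⟩
      · exact Or.inr ⟨h1, h2⟩
      · exact Or.inl h2
    · rintro (h | ⟨h1, h2⟩)
      · exact ⟨fun h' => hG (h' ▸ h), Or.inr h⟩
      · exact ⟨h1, Or.inl h2⟩
  unfold Pool.Agent.W810.KP.Con CO Cn
  rw [e1]
  constructor
  · intro h
    exact ⟨src β, rfl, tgt β, rfl, h⟩
  · rintro ⟨u, hu, v, hv, h⟩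
    rw [Set.mem_singleton_iff] at hu hv
    rwa [hu, hv] at h

theorem bf_iff {β : Edg} {X F b : Finset Edg} (hF : β ∉ F) (hb : β ∉ b) (hXb : Disjoint X b) :
    Bf (Con β) b (X ∪ F) ↔ Bf (CO {src β} {tgt β} (↑(X.erase β) : Set Edg)) b F := by
  unfold Bf
  rw [union_assoc, union_sdiff_distrib, sdiff_eq_self_of_disjoint hXb,
    con_union (by rw [mem_union]; tauto), con_union (fun h => hF (mem_sdiff.mp h).1)]

/-- Without a local four-arm event the tile is not pivotal. -/
theorem no_bf {β : Edg} {r : ℕ} (hr : 1 ≤ r) {X F b : Finset Edg} (hX : X ⊆ blk (bp β) r)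
    (hF : Disjoint F (blk (bp β) r)) (hb : Disjoint b (blk (bp β) r))
    (h : Bf (Con β) b (X ∪ F)) : L4 r β ↑X := by
  have hβ := mem_blk_self (β := β) hr
  have hβF : β ∉ F := fun h' => (Finset.disjoint_left.mp hF) h' hβ
  have hβb : β ∉ b := fun h' => (Finset.disjoint_left.mp hb) h' hβ
  obtain ⟨h1, h2⟩ := h
  unfold Pool.Agent.W810.KP.Con at h1 h2
  have hE : blk (bp β) r = RE (β.1 - r) (β.1 + r) (β.2.1 - r) (β.2.1 + r) := rfl
  have e1 : (↑((X ∪ F ∪ b).erase β) : Set Edg) ∩
      ↑(RE (β.1 - r) (β.1 + r) (β.2.1 - r) (β.2.1 + r)) =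
      ((↑X : Set Edg) ∩ ↑(RE (β.1 - r) (β.1 + r) (β.2.1 - r) (β.2.1 + r))) \ {β} := by
    rw [← hE]
    ext x
    simp only [Finset.mem_coe, mem_erase, mem_union, Set.mem_inter_iff, Set.mem_sdiff,
      Set.mem_singleton_iff]
    constructor
    · rintro ⟨⟨h3, (h4 | h4) | h4⟩, h5⟩
      · exact ⟨⟨h4, h5⟩, h3⟩
      · exact absurd h5 ((Finset.disjoint_left.mp hF) h4)
      · exact absurd h5 ((Finset.disjoint_left.mp hb) h4)
    · rintro ⟨⟨h4, h5⟩, h3⟩
      exact ⟨⟨h3, Or.inl (Or.inl h4)⟩, h5⟩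
  have e2 : ((↑X : Set Edg) ∩ ↑(RE (β.1 - r) (β.1 + r) (β.2.1 - r) (β.2.1 + r))) \ {β} ⊆
      (↑(((X ∪ F) \ b).erase β) : Set Edg) := by
    rw [← hE]
    rintro x ⟨⟨h4, h5⟩, h3⟩
    simp only [Finset.mem_coe, mem_erase, mem_union, mem_sdiff]
    refine ⟨h3, Or.inl (Finset.mem_coe.mp h4), fun h6 => ?_⟩
    exact (Finset.disjoint_left.mp hb) h6 (hX (Finset.mem_coe.mp h4))
  have hno : ¬ Reach (((↑X : Set Edg) ∩ ↑(RE (β.1 - r) (β.1 + r) (β.2.1 - r) (β.2.1 + r))) \ {β})
      (src β) (tgt β) := fun h3 => h2 (h3.mono e2)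
  have ht := tgt_near β
  refine ⟨?_, ?_, hno⟩
  · have hin : inR (β.1 - r) (β.1 + r) (β.2.1 - r) (β.2.1 + r) (src β) := by
      unfold inR src
      simp only
      omega
    rcases exit_or hin h1 with h3 | h3
    · rw [e1] at h3
      exact h3
    · rw [e1] at h3
      exact absurd h3 hno
  · have hin : inR (β.1 - r) (β.1 + r) (β.2.1 - r) (β.2.1 + r) (tgt β) := by
      unfold inR
      omega
    rcases exit_or hin h1.symm with h3 | h3
    · rw [e1] at h3
      exact h3
    · rw [e1] at h3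
      exact absurd h3.symm hno

theorem main : S_blk := by
  intro κ hκ K hK
  refine ⟨2 * (K:ℝ) ^ 2 * κ⁻¹ ^ 4, ?_, ?_⟩
  · have : (0:ℝ) < K := by exact_mod_cast hK
    positivity
  intro q n hW S β s R r T hs hR hRn hKs hr hB hT hfar
  have h0 : 0 ≤ q := by linarith [hW.lo]
  have h1 : q ≤ 1 := by linarith [hW.hi]
  have hok := okq h0 h1
  set B := blk (bp β) r with hBdef
  set S2 := S \ B with hS2
  have hβ : β ∈ B := mem_blk_self hr
  have hdisj : Disjoint B S2 := by
    rw [hS2]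
    exact Finset.disjoint_sdiff
  have hSeq : S = B ∪ S2 := by rw [hS2, union_sdiff_of_subset hB]
  set c : ℝ := 2 * (K:ℝ) ^ 2 * κ⁻¹ ^ 4 * Real.sqrt T.card with hc
  have hc0 : 0 ≤ c := by
    have h5 : (0:ℝ) ≤ 2 * (K:ℝ) ^ 2 * κ⁻¹ ^ 4 := by positivity
    rw [hc]
    exact mul_nonneg h5 (Real.sqrt_nonneg _)
  -- blocks are disjoint from the ball
  have hbB : ∀ t ∈ T, Disjoint (blk (s * t.1, s * t.2) (3 * R)) B := by
    intro t ht
    rw [Finset.disjoint_left]
    intro e h2 h3
    have k1 := BS_adj_box h2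
    have k2 := BS_adj_box h3
    have k3 := hfar t ht
    unfold inR at k1 k2
    unfold bp at k2
    rw [le_abs, le_abs] at k3
    simp only at k1 k2
    push_cast at k1
    omega
  have hbb : ∀ t : ℤ × ℤ, blk (s * t.1, s * t.2) R ⊆ blk (s * t.1, s * t.2) (3 * R) := by
    rintro t ⟨x, y, b⟩ h2
    unfold blk at h2 ⊢
    cases b
    · rw [mem_RE_false] at h2 ⊢
      push_cast
      omega
    · rw [mem_RE_true] at h2 ⊢
      push_cast
      omega
  have hpt : ∀ X, X ⊆ B → ∑ t ∈ T, PQ q S2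
      (fun F => Bf (Con β) (blk (s * t.1, s * t.2) R) (X ∪ F)) ≤ ind (L4 r β ↑X) * c := by
    intro X hX
    by_cases hL : L4 r β ↑X
    · rw [ind_of hL, one_mul, hc]
      have hO : Disjoint (↑(X.erase β) : Set Edg) ↑S2 := by
        rw [Finset.disjoint_coe]
        exact hdisj.mono_left ((erase_subset _ _).trans hX)
      have key := tile_sum hW (S := S2) (I := {src β}) (J := {tgt β}) hO hs hR hRn hK hKs T ?_ ?_
      · refine le_trans (le_of_eq ?_) key
        apply Finset.sum_congr rfl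
        intro t ht
        apply Pr_congr
        intro F hF
        refine bf_iff (fun h2 => ?_) (fun h2 => ?_) ?_
        · exact (mem_sdiff.mp (hF h2)).2 hβ
        · exact (Finset.disjoint_left.mp (hbB t ht)) (hbb t h2) hβ
        · exact ((hbB t ht).mono_left (hbb t)).symm.mono_left hX
      · intro t ht e he
        rw [hS2, mem_sdiff]
        exact ⟨hT t ht he, fun h2 => (Finset.disjoint_left.mp (hbB t ht)) he h2⟩
      · intro t ht v hv
        have k3 := hfar t ht
        have k4 := tgt_near β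
        rw [le_abs, le_abs] at k3
        rcases hv with hv | hv
        · rw [Set.mem_singleton_iff] at hv
          rw [hv]
          unfold src
          simp only
          omega
        · rw [Set.mem_singleton_iff] at hv
          rw [hv]
          omega
    · rw [ind_not_of hL, zero_mul]
      apply le_of_eq
      apply Finset.sum_eq_zero
      intro t ht
      unfold PQ Pr
      rw [Ex_congr (g := fun _ => (0:ℝ)) ?_, Ex_const]
      intro F hF
      apply ind_not_of
      intro h2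
      apply hL
      refine no_bf hr hX ?_ ((hbB t ht).mono_left (hbb t)) h2
      exact (hdisj.mono_right hF).symm
  calc ∑ t ∈ T, PQ q S (Bf (Con β) (blk (s * t.1, s * t.2) R))
      = ∑ t ∈ T, Ex (fun _ => q) B (fun X => PQ q S2
          (fun F => Bf (Con β) (blk (s * t.1, s * t.2) R) (X ∪ F))) := by
        apply Finset.sum_congr rfl
        intro t _
        unfold PQ Pr
        rw [hSeq, Ex_union hdisj]
    _ = Ex (fun _ => q) B (fun X => ∑ t ∈ T, PQ q S2
          (fun F => Bf (Con β) (blk (s * t.1, s * t.2) R) (X ∪ F))) := by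
        rw [Ex_sum]
    _ ≤ Ex (fun _ => q) B (fun X => ind (L4 r β ↑X) * c) := Ex_mono hok hpt
    _ = PQ q B (fun F => L4 r β ↑F) * c := by
        rw [Ex_mul_right]
        rfl
    _ ≤ a4 q r * c := mul_le_mul_of_nonneg_right (pr_L4 h0 h1 (Finset.Subset.refl _)) hc0
    _ = 2 * (K:ℝ) ^ 2 * κ⁻¹ ^ 4 * a4 q r * Real.sqrt T.card := by rw [hc]; ring

end Pool.Agent.W324.KPBlk
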