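import Pool.Agent.W810.KP.Defs
import Pool.Agent.H973R3.NC.DV

/-! KP-DER: first and second derivative of the probability of `Con e`. -/

namespace Pool.Agent.W324.KPDer

open H974 H12S H973N Finset Pool.Agent.W810.KP

theorem con_mono (e : Edg) : ∀ F G : Finset Edg, F ⊆ G → Con e F → Con e G := by
  intro F G h hF
  have h1 : (↑(F.erase e) : Set Edg) ⊆ ↑(G.erase e) := by
    exact_mod_cast erase_subset_erase e h
  exact Reach.mono h1 hF

theorem con_insert (e : Edg) (F : Finset Edg) : Con e (insert e F) ↔ Con e F := by
  unfold Pool.Agent.W810.KP.Con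
  rw [erase_insert_eq_erase]

theorem con_erase (e : Edg) (F : Finset Edg) : Con e (F.erase e) ↔ Con e F := by
  unfold Pool.Agent.W810.KP.Con
  rw [erase_idem]

theorem pf_self (e : Edg) (F : Finset Edg) : ¬ Pf (Con e) e F := by
  rintro ⟨h1, h2⟩
  exact h2 ((con_erase e F).mpr ((con_insert e F).mp h1))

theorem pf_insert_self {E : Type*} [DecidableEq E] (f : Finset E → Prop) (g : E) (F : Finset E) :
    Pf f g (insert g F) ↔ Pf f g F := by
  unfold Pf
  rw [insert_idem, erase_insert_eq_erase]

theorem pf_insert_e (e g : Edg) (F : Finset Edg) :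
    Pf (Con e) g (insert e F) ↔ Pf (Con e) g F := by
  by_cases hge : g = e
  · subst hge
    exact pf_insert_self _ _ _
  · unfold Pf
    rw [Finset.insert_comm, con_insert, erase_insert_of_ne (Ne.symm hge), con_insert]

theorem t3_local {S : Finset Edg} {e g h : Edg} :
    ∀ F, F ⊆ S → (T3 e g h F ↔ T3 e g h (F ∩ S.erase h)) := by
  intro F hF
  have k1 : (F ∩ S.erase h).erase h = F.erase h := by
    ext x
    simp only [mem_inter, mem_erase]
    constructor
    · rintro ⟨h, h2, _⟩
      exact ⟨h, h2⟩
    · rintro ⟨h, h2⟩
      exact ⟨h, h2, h, hF h2⟩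
  have k2 : insert h (F ∩ S.erase h) = insert h F := by
    ext x
    simp only [mem_insert, mem_inter, mem_erase]
    constructor
    · rintro (h | ⟨h, _⟩)
      · exact Or.inl h
      · exact Or.inr h
    · rintro (h | h')
      · exact Or.inl h
      · by_cases hx : x = h
        · exact Or.inl hx
        · exact Or.inr ⟨h', hx, hF h'⟩
  unfold T3
  rw [k1, k2]

theorem main : S_der := by
  intro S e he q h0 h1
  have hok : Ok (fun _ : Edg => q) := fun _ => ⟨h0, h1⟩
  refine ⟨?_, ?_⟩
  · have h := deriv_f S (Con e) (con_mono e) q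
    rw [← add_sum_erase S _ he] at h
    have hz : Pr (fun _ => q) S (Pf (Con e) e) = 0 := by
      unfold Pr
      rw [Ex_congr (g := fun _ => (0:ℝ)) (fun F _ => ind_not_of (pf_self e F)), Ex_const]
    rw [hz, zero_add] at h
    exact h
  · refine ⟨∑ g ∈ S.erase e, ∑ h ∈ S, (1:ℝ) * Ex (fun _ => q) (S.erase h)
      (fun F => ind (Pf (Con e) g (insert h F)) - ind (Pf (Con e) g F)), ?_, ?_⟩
    · have := HasDerivAt.fun_sum (u := S.erase e) (x := q)
        (A := fun g => fun q : ℝ => Pr (fun _ => q) S (Pf (Con e) g))
        (A' := fun g => ∑ h ∈ S, (1:ℝ) * Ex (fun _ => q) (S.erase h)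
          (fun F => ind (Pf (Con e) g (insert h F)) - ind (Pf (Con e) g F)))
        (fun g _ => Ex_hasDerivAt (E := Edg) (fun q _ => q) (fun _ => (1:ℝ)) q
          (fun _ => hasDerivAt_id q) S (fun F => ind (Pf (Con e) g F)))
      exact this
    · refine (abs_sum_le_sum_abs _ _).trans (sum_le_sum ?_)
      intro g hg
      have hgS : g ∈ S := (mem_erase.mp hg).2
      have hge : g ≠ e := (mem_erase.mp hg).1
      have hz1 : Ex (fun _ => q) (S.erase e)
          (fun F => ind (Pf (Con e) g (insert e F)) - ind (Pf (Con e) g F)) = 0 := by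
        rw [Ex_congr (g := fun _ => (0:ℝ)) (fun F _ => by
          rw [ind_congr (pf_insert_e e g F), sub_self]), Ex_const]
      have hz2 : Ex (fun _ => q) (S.erase g)
          (fun F => ind (Pf (Con e) g (insert g F)) - ind (Pf (Con e) g F)) = 0 := by
        rw [Ex_congr (g := fun _ => (0:ℝ)) (fun F _ => by
          rw [ind_congr (pf_insert_self (Con e) g F), sub_self]), Ex_const]
      rw [← add_sum_erase S _ he, hz1, mul_zero, zero_add]
      rw [← add_sum_erase (S.erase e) _ hg, hz2, mul_zero, zero_add]
      refine (abs_sum_le_sum_abs _ _).trans (sum_le_sum ?_)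
      intro h hh
      rw [one_mul]
      change _ ≤ Pr (fun _ => q) S (T3 e g h)
      rw [Pr_local (erase_subset h S) t3_local]
      unfold Pr
      have hb : ∀ F, F ⊆ S.erase h →
          |ind (Pf (Con e) g (insert h F)) - ind (Pf (Con e) g F)| ≤ ind (T3 e g h F) := by
        intro F hF
        have heF : F.erase h = F := erase_eq_of_notMem (fun h' => (mem_erase.mp (hF h')).1 rfl)
        by_cases hA : Pf (Con e) g (insert h F)
        · by_cases hB : Pf (Con e) g F
          · rw [ind_of hA, ind_of hB]
            simpa using ind_nonneg _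
          · have hT : T3 e g h F := by
              unfold T3
              rw [heF]
              exact fun h' => hB (h'.mp hA)
            rw [ind_of hA, ind_not_of hB, ind_of hT]
            norm_num
        · by_cases hB : Pf (Con e) g F
          · have hT : T3 e g h F := by
              unfold T3
              rw [heF]
              exact fun h' => hA (h'.mpr hB)
            rw [ind_not_of hA, ind_of hB, ind_of hT]
            norm_num
          · rw [ind_not_of hA, ind_not_of hB]
            simpa using ind_nonneg _
      rw [abs_le]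
      constructor
      · have := Ex_mono hok (S := S.erase h) (f := fun F => (-1:ℝ) * ind (T3 e g h F))
          (g := fun F => ind (Pf (Con e) g (insert h F)) - ind (Pf (Con e) g F)) (fun F hF => by
            have := (abs_le.mp (hb F hF)).1
            linarith)
        rw [Ex_mul_left] at this
        linarith
      · exact Ex_mono hok (fun F hF => (abs_le.mp (hb F hF)).2)

end Pool.Agent.W324.KPDer
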