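import Pool.Agent.W810.KP.Defs
import Pool.Agent.H12R2.Sep.Near

/-! KP-RING: sum over the pairs in a ring. -/

namespace Pool.Agent.W324.KPRing

open H974 H12S H973N Finset Pool.Agent.W810.KP

theorem tile_bd {s : ℕ} (hs : 1 ≤ s) (x : ℤ) : 0 ≤ x - s * (x / s) ∧ x - s * (x / s) < s := by
  have hs' : (0:ℤ) < s := by exact_mod_cast hs
  have h1 := Int.emod_add_mul_ediv x s
  have h2 := Int.emod_nonneg x hs'.ne'
  have h3 := Int.emod_lt_of_pos x hs'
  constructor <;> linarith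

theorem a4_nonneg {q : ℝ} (h0 : 0 ≤ q) (h1 : q ≤ 1) (m : ℕ) : 0 ≤ a4 q m := by
  unfold a4
  exact add_nonneg (Pr_nonneg (okq h0 h1) _ _) (Pr_nonneg (okq h0 h1) _ _)

theorem main (hb : S_blk) (hp : S_pair) : S_ring := by
  intro κ hκ
  obtain ⟨C0, hC0, hblk⟩ := hb κ hκ 61 (by norm_num)
  refine ⟨4 * 289 * 257 * C0, by positivity, ?_⟩
  intro q n hW S U β s j r hs hsn hr hrj hB hU
  have h0 : 0 ≤ q := by linarith [hW.lo]
  have h1 : q ≤ 1 := by linarith [hW.hi]
  have hok := okq h0 h1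
  classical
  set X : ℤ := 2 ^ j * s with hX
  have hsX : (s:ℤ) ≤ X := by
    have h2 : (1:ℤ) ≤ 2 ^ j := one_le_pow₀ (by norm_num)
    have h3 : (0:ℤ) ≤ s := Int.natCast_nonneg _
    rw [hX]
    nlinarith
  have hrX : (r:ℤ) ≤ X := by
    rw [hX]
    exact_mod_cast hrj
  have hs' : (1:ℤ) ≤ s := by exact_mod_cast hs
  set U' := U.filter (fun g => 64 * X < dst β g ∧ dst β g ≤ 128 * X) with hU'
  set W : ℤ × ℤ → ℝ := fun t => PQ q S (Bf (Con β) (blk (s * t.1, s * t.2) (10 * s))) with hWd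
  have hW0 : ∀ t, 0 ≤ W t := fun t => Pr_nonneg hok _ _
  have ha := a4_nonneg h0 h1 s
  have har := a4_nonneg h0 h1 r
  -- geometry of the tiles
  have hgeo : ∀ g ∈ U', blk (s * (NRk s g).1, s * (NRk s g).2) (3 * (10 * s)) ⊆ S ∧
      ((3 * (10 * s : ℕ) : ℤ) + r + 1 ≤ |β.1 - s * (NRk s g).1| ∨
        (3 * (10 * s : ℕ) : ℤ) + r + 1 ≤ |β.2.1 - s * (NRk s g).2|) := by
    intro g hg
    rw [hU', mem_filter] at hg
    obtain ⟨hgU, hg1, hg2⟩ := hg
    have t1 := tile_bd hs g.1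
    have t2 := tile_bd hs g.2.1
    constructor
    · refine Finset.Subset.trans ?_ (hU g hgU)
      rintro ⟨x, y, b⟩ he
      unfold blk bp at *
      unfold NRk at he
      simp only at he
      generalize (s:ℤ) * (g.1 / s) = u1 at *
      generalize (s:ℤ) * (g.2.1 / s) = u2 at *
      cases b
      · rw [mem_RE_false] at he ⊢
        push_cast at he ⊢
        omega
      · rw [mem_RE_true] at he ⊢
        push_cast at he ⊢
        omega
    · unfold dst at hg1
      rw [lt_max_iff, lt_abs, lt_abs] at hg1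
      unfold NRk
      simp only
      generalize (s:ℤ) * (g.1 / s) = u1 at *
      generalize (s:ℤ) * (g.2.1 / s) = u2 at *
      rw [le_abs, le_abs]
      push_cast
      omega
  -- one pair
  have hpair : ∀ g ∈ U', ∀ h ∈ U, 4 * (s:ℤ) ≤ dst g h → dst g h < 8 * s →
      PQ q S (T3 β g h) ≤ a4 q s ^ 2 * W (NRk s g) := by
    intro g hg h _ hd1 hd2
    obtain ⟨hg3, hg4⟩ := hgeo g hg
    have t1 := tile_bd hs g.1
    have t2 := tile_bd hs g.2.1
    unfold dst at hd2
    rw [max_lt_iff, abs_lt, abs_lt] at hd2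
    have hsub : blk (s * (NRk s g).1, s * (NRk s g).2) (10 * s) ⊆ S := by
      refine Finset.Subset.trans ?_ hg3
      rintro ⟨x, y, b⟩ he
      unfold blk at *
      cases b
      · rw [mem_RE_false] at he ⊢
        push_cast at he ⊢
        omega
      · rw [mem_RE_true] at he ⊢
        push_cast at he ⊢
        omega
    change _ ≤ a4 q s ^ 2 * PQ q S (Bf (Con β) (blk (s * (NRk s g).1, s * (NRk s g).2) (10 * s)))
    have n1 : (s:ℤ) * (NRk s g).1 = s * (g.1 / s) := rfl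
    have n2 : (s:ℤ) * (NRk s g).2 = s * (g.2.1 / s) := rfl
    rw [n1, n2] at hsub hg4 ⊢
    generalize (s:ℤ) * (g.1 / s) = u1 at *
    generalize (s:ℤ) * (g.2.1 / s) = u2 at *
    refine hp q h0 h1 S β g h _ (10 * s) s hs hsub ?_ ?_ ?_ ?_ ?_ (by omega)
    · simp only
      rcases hg4 with hg4 | hg4
      · left
        push_cast at hg4 ⊢
        omega
      · right
        push_cast at hg4 ⊢
        omega
    · simp only
      rw [← le_sub_iff_add_le, abs_le]
      push_cast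
      omega
    · simp only
      rw [← le_sub_iff_add_le, abs_le]
      push_cast
      omega
    · simp only
      rw [← le_sub_iff_add_le, abs_le]
      push_cast
      omega
    · simp only
      rw [← le_sub_iff_add_le, abs_le]
      push_cast
      omega
  -- the inner sum
  have hin : ∀ g ∈ U', ∑ h ∈ U, ind (4 * (s:ℤ) ≤ dst g h ∧ dst g h < 8 * s ∧
      64 * X < dst β g ∧ dst β g ≤ 128 * X) * PQ q S (T3 β g h) ≤
      (2 * (2 * (8 * s) + 1) ^ 2) * (a4 q s ^ 2 * W (NRk s g)) := by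
    intro g hg
    have hn0 : 0 ≤ a4 q s ^ 2 * W (NRk s g) := mul_nonneg (sq_nonneg _) (hW0 _)
    calc ∑ h ∈ U, ind (4 * (s:ℤ) ≤ dst g h ∧ dst g h < 8 * s ∧
          64 * X < dst β g ∧ dst β g ≤ 128 * X) * PQ q S (T3 β g h)
        ≤ ∑ h ∈ U, (if H12S.edist g h ≤ ((8 * s : ℕ) : ℤ) then a4 q s ^ 2 * W (NRk s g) else 0) := by
          refine sum_le_sum fun h hh => ?_
          by_cases hP : 4 * (s:ℤ) ≤ dst g h ∧ dst g h < 8 * s ∧
            64 * X < dst β g ∧ dst β g ≤ 128 * X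
          · rw [ind_of hP, one_mul, if_pos]
            · exact hpair g hg h hh hP.1 hP.2.1
            · have h2 := hP.2.1
              have h3 : dst g h = H12S.edist g h := rfl
              rw [← h3]
              push_cast
              omega
          · rw [ind_not_of hP, zero_mul]
            split_ifs
            · exact hn0
            · exact le_rfl
      _ = ∑ h ∈ U.filter (fun h => H12S.edist g h ≤ ((8 * s : ℕ) : ℤ)),
            a4 q s ^ 2 * W (NRk s g) := by rw [sum_filter]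
      _ = (U.filter (fun h => H12S.edist g h ≤ ((8 * s : ℕ) : ℤ))).card *
            (a4 q s ^ 2 * W (NRk s g)) := by rw [sum_const, nsmul_eq_mul]
      _ ≤ (2 * (2 * (8 * s) + 1) ^ 2) * (a4 q s ^ 2 * W (NRk s g)) := by
          refine mul_le_mul_of_nonneg_right ?_ hn0
          exact_mod_cast NR_near (8 * s) U g
  -- the outer sum
  have hout : ∑ g ∈ U, ∑ h ∈ U, ind (4 * (s:ℤ) ≤ dst g h ∧ dst g h < 8 * s ∧
      64 * X < dst β g ∧ dst β g ≤ 128 * X) * PQ q S (T3 β g h) =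
      ∑ g ∈ U', ∑ h ∈ U, ind (4 * (s:ℤ) ≤ dst g h ∧ dst g h < 8 * s ∧
      64 * X < dst β g ∧ dst β g ≤ 128 * X) * PQ q S (T3 β g h) := by
    symm
    apply Finset.sum_subset (filter_subset _ _)
    intro g hg hg2
    apply Finset.sum_eq_zero
    intro h _
    rw [ind_not_of, zero_mul]
    rintro ⟨_, _, h4, h5⟩
    exact hg2 (mem_filter.mpr ⟨hg, h4, h5⟩)
  have hfib : ∑ g ∈ U', W (NRk s g) ≤ (2 * (s:ℝ) ^ 2) * ∑ t ∈ U'.image (NRk s), W t := by
    have e1 : ∑ g ∈ U', W (NRk s g) =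
        ∑ k ∈ U'.image (NRk s), ∑ e ∈ U'.filter (fun e => NRk s e = k), W (NRk s e) :=
      (sum_fiberwise_of_maps_to (fun e he => mem_image_of_mem _ he) _).symm
    rw [e1, mul_sum]
    refine sum_le_sum fun k _ => ?_
    have e2 : ∑ e ∈ U'.filter (fun e => NRk s e = k), W (NRk s e) =
        (U'.filter (fun e => NRk s e = k)).card * W k := by
      rw [← nsmul_eq_mul, ← sum_const]
      refine sum_congr rfl fun e he => ?_
      rw [(mem_filter.1 he).2]
    rw [e2]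
    refine mul_le_mul_of_nonneg_right ?_ (hW0 k)
    exact_mod_cast NR_fib s hs _ k
  have hcard : Real.sqrt (U'.image (NRk s)).card ≤ 257 * 2 ^ j := by
    have hsub : U'.image (NRk s) ⊆ Icc (β.1 / s - 128 * 2 ^ j) (β.1 / s + 128 * 2 ^ j) ×ˢ
        Icc (β.2.1 / s - 128 * 2 ^ j) (β.2.1 / s + 128 * 2 ^ j) := by
      intro t ht
      rw [mem_image] at ht
      obtain ⟨g, hg, rfl⟩ := ht
      rw [hU', mem_filter] at hg
      obtain ⟨_, _, hg2⟩ := hg
      unfold dst at hg2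
      rw [max_le_iff, abs_le, abs_le] at hg2
      have key : ∀ x y : ℤ, -(128 * X) ≤ x - y → x - y ≤ 128 * X →
          x / s - 128 * 2 ^ j ≤ y / s ∧ y / s ≤ x / s + 128 * 2 ^ j := by
        intro x y hx hy
        have hs0 : (0:ℤ) < s := by omega
        have e1 : (x + (128 * 2 ^ j) * (s:ℤ)) / s = x / s + 128 * 2 ^ j :=
          Int.add_mul_ediv_right _ _ hs0.ne'
        have e2 : (x + (-(128 * 2 ^ j)) * (s:ℤ)) / s = x / s + -(128 * 2 ^ j) :=
          Int.add_mul_ediv_right _ _ hs0.ne'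
        have e3 : (128 * 2 ^ j) * (s:ℤ) = 128 * X := by rw [hX]; ring
        have e4 : (-(128 * 2 ^ j)) * (s:ℤ) = - (128 * X) := by rw [hX]; ring
        rw [e3] at e1
        rw [e4] at e2
        constructor
        · have := Int.ediv_le_ediv hs0 (show x + -(128 * X) ≤ y by omega)
          omega
        · have := Int.ediv_le_ediv hs0 (show y ≤ x + 128 * X by omega)
          omega
      unfold NRk
      rw [mem_product, mem_Icc, mem_Icc]
      exact ⟨key _ _ hg2.1.1 hg2.1.2, key _ _ hg2.2.1 hg2.2.2⟩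
    have hc := card_le_card hsub
    rw [card_product, Int.card_Icc, Int.card_Icc] at hc
    have e1 : (β.1 / (s:ℤ) + 128 * 2 ^ j + 1 - (β.1 / s - 128 * 2 ^ j)).toNat =
        256 * 2 ^ j + 1 := by
      have : β.1 / (s:ℤ) + 128 * 2 ^ j + 1 - (β.1 / s - 128 * 2 ^ j) =
        ((256 * 2 ^ j + 1 : ℕ) : ℤ) := by push_cast; ring
      rw [this, Int.toNat_natCast]
    have e2 : (β.2.1 / (s:ℤ) + 128 * 2 ^ j + 1 - (β.2.1 / s - 128 * 2 ^ j)).toNat =
        256 * 2 ^ j + 1 := by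
      have : β.2.1 / (s:ℤ) + 128 * 2 ^ j + 1 - (β.2.1 / s - 128 * 2 ^ j) =
        ((256 * 2 ^ j + 1 : ℕ) : ℤ) := by push_cast; ring
      rw [this, Int.toNat_natCast]
    rw [e1, e2] at hc
    have hp1 : (1:ℝ) ≤ 2 ^ j := one_le_pow₀ (by norm_num)
    rw [Real.sqrt_le_left (by positivity)]
    have hc' : ((U'.image (NRk s)).card : ℝ) ≤ (256 * 2 ^ j + 1) * (256 * 2 ^ j + 1) := by
      exact_mod_cast hc
    nlinarith
  have hB3 := hblk q n hW S β s (10 * s) r (U'.image (NRk s)) hs (by omega) (by omega)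
    (by omega) hr hB
    (by
      intro t ht
      rw [mem_image] at ht
      obtain ⟨g, hg, rfl⟩ := ht
      exact (hgeo g hg).1)
    (by
      intro t ht
      rw [mem_image] at ht
      obtain ⟨g, hg, rfl⟩ := ht
      exact (hgeo g hg).2)
  have hs1 : (1:ℝ) ≤ s := by exact_mod_cast hs
  have hA : (2 * (2 * (8 * (s:ℝ)) + 1) ^ 2) ≤ 2 * (289 * (s:ℝ) ^ 2) := by nlinarith
  have hsumW : 0 ≤ ∑ t ∈ U'.image (NRk s), W t := sum_nonneg fun t _ => hW0 t
  have hfin : ∑ t ∈ U'.image (NRk s), W t ≤ C0 * a4 q r * (257 * 2 ^ j) :=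
    hB3.trans (mul_le_mul_of_nonneg_left hcard (mul_nonneg hC0.le har))
  calc ∑ g ∈ U, ∑ h ∈ U, ind (4 * (s:ℤ) ≤ dst g h ∧ dst g h < 8 * s ∧
        64 * X < dst β g ∧ dst β g ≤ 128 * X) * PQ q S (T3 β g h)
      ≤ ∑ g ∈ U', (2 * (2 * (8 * (s:ℝ)) + 1) ^ 2) * (a4 q s ^ 2 * W (NRk s g)) := by
        rw [hout]
        exact sum_le_sum hin
    _ = (2 * (2 * (8 * (s:ℝ)) + 1) ^ 2) * a4 q s ^ 2 * ∑ g ∈ U', W (NRk s g) := by
        rw [mul_sum]
        refine sum_congr rfl fun g _ => ?_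
        ring
    _ ≤ (2 * (289 * (s:ℝ) ^ 2)) * a4 q s ^ 2 * ((2 * (s:ℝ) ^ 2) *
          (C0 * a4 q r * (257 * 2 ^ j))) := by
        have hsq : 0 ≤ a4 q s ^ 2 := sq_nonneg _
        have hfib' : ∑ g ∈ U', W (NRk s g) ≤ (2 * (s:ℝ) ^ 2) * (C0 * a4 q r * (257 * 2 ^ j)) :=
          hfib.trans (mul_le_mul_of_nonneg_left hfin (by positivity))
        have h5 : 0 ≤ ∑ g ∈ U', W (NRk s g) := sum_nonneg fun g _ => hW0 _
        exact mul_le_mul (mul_le_mul_of_nonneg_right hA hsq) hfib' h5 (by positivity)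
    _ = 4 * 289 * 257 * C0 * (s:ℝ) ^ 4 * a4 q s ^ 2 * a4 q r * 2 ^ j := by ring

end Pool.Agent.W324.KPRing
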